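import Pool.Agent.K1H35.JA.Stm

/-!
# Piece JL: the language of a jumping automaton and Parikh vectors
-/

set_option autoImplicit false

open Pool.Agent.K1H35.JA

namespace Pool.Agent.K1H25.JA

theorem pk_append {k : ℕ} (u v : List (Fin k)) : pk (u ++ v) = pk u + pk v := by
  funext i
  simp [pk, List.count_append]

theorem pk_nil {k : ℕ} : pk ([] : List (Fin k)) = 0 := by
  funext i
  simp [pk]

theorem pk_toList {k : ℕ} (a : Option (Fin k)) : pk a.toList = vec a := by
  cases a with
  | none =>
    funext i
    simp [pk, vec]
  | some j =>
    funext i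
    simp only [pk, vec, e, Option.toList_some, List.count_singleton, Pi.single_apply]
    by_cases h : j = i
    · simp [h]
    · have h' : ¬ i = j := fun h' => h h'.symm
      simp [h, h']

theorem pk_split {k : ℕ} (a : Option (Fin k)) (u v : List (Fin k)) :
    pk (u ++ a.toList ++ v) = vec a + pk (u ++ v) := by
  rw [pk_append, pk_append, pk_append, pk_toList]
  abel

theorem reach_of_run {n k : ℕ} (A : Aut n k) (r : Fin n) (c : Fin n × List (Fin k))
    (h : Relation.ReflTransGen (Step A) c (r, [])) : Reach A c.1 (pk c.2) r := by
  induction h using Relation.ReflTransGen.head_induction_on with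
  | refl =>
    show Reach A r (pk []) r
    rw [pk_nil]
    exact Reach.nil r
  | head h1 _ ih =>
    obtain ⟨a, u, v, hs, h2, h3⟩ := h1
    rw [h2, pk_split, ← h3]
    exact Reach.cons hs ih

theorem run_of_reach {n k : ℕ} (A : Aut n k) {q r : Fin n} {x : Fin k → ℕ}
    (h : Reach A q x r) : ∀ w : List (Fin k), pk w = x →
      Relation.ReflTransGen (Step A) (q, w) (r, []) := by
  induction h with
  | nil q =>
    intro w hw
    have : w = [] := by
      cases w with
      | nil => rfl
      | cons j w =>
        have := congrFun hw j
        simp [pk] at this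
    rw [this]
  | @cons q r s a x hs _ ih =>
    intro w hw
    have key : ∃ u v : List (Fin k), w = u ++ a.toList ++ v := by
      cases a with
      | none => exact ⟨[], w, by simp⟩
      | some i =>
        have h1 : i ∈ w := by
          have h2 := congrFun hw i
          have h3 : 0 < w.count i := by
            simp only [pk, vec, e, Pi.add_apply, Pi.single_eq_same] at h2
            omega
          exact List.count_pos_iff.1 h3
        obtain ⟨u, v, huv⟩ := List.append_of_mem h1
        exact ⟨u, v, by simp [huv]⟩
    obtain ⟨u, v, huv⟩ := key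
    have h4 : pk (u ++ v) = x := by
      rw [huv, pk_split] at hw
      exact add_left_cancel hw
    exact Relation.ReflTransGen.head ⟨a, u, v, hs, huv, rfl⟩ (ih (u ++ v) h4)

/-- **Piece JL.** -/
theorem t_JL : S_JL := by
  intro n k A w
  constructor
  · rintro ⟨q, hq, h⟩
    exact ⟨q, hq, reach_of_run A q (A.start, w) h⟩
  · rintro ⟨q, hq, h⟩
    exact ⟨q, hq, run_of_reach A h w rfl⟩

end Pool.Agent.K1H25.JA
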